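import Pool.Agent.N303.LS.Stm3
import Pool.Agent.N303.LS.Fin

/-!
# Project LM (helper303): the pointwise bound of the mean of the maximal functions
-/

set_option autoImplicit false

namespace Pool.Agent.N303.LS

open MeasureTheory
open scoped ENNReal FourierTransform RealInnerProductSpace SchwartzMap

namespace MX

lemma der (h1 : S_DT) {d : ℕ} (hd : 0 < d) (K : 𝓢(E d, ℂ)) (k : Fin d ⊕ Bool) (g : 𝓢(E d, ℂ)) :
    ∃ (n : ℕ) (kk : Fin n → Fin d ⊕ Bool) (gg : Fin n → 𝓢(E d, ℂ)), n ≤ d ∧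
      (∀ m, gg m = g ∨ ∃ j, gg m = dj j g) ∧
      ∀ (A : Finset (Fin d → ℤ)) (x : E d) (t : ℝ),
        HasDerivAt (fun s => pc K A k g s x) (∑ m, pc K A (kk m) (gg m) t x) t := by
  match k with
  | Sum.inr true =>
    exact ⟨d, Sum.inl, fun j => dj j g, le_rfl, fun m => Or.inr ⟨m, rfl⟩,
      fun A x t => (h1 d hd K A g x t).1⟩
  | Sum.inr false =>
    refine ⟨1, fun _ => Sum.inr true, fun _ => g, hd, fun m => Or.inl rfl, fun A x t => ?_⟩
    simpa using (h1 d hd K A g x t).2.1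
  | Sum.inl j =>
    refine ⟨1, fun _ => Sum.inr true, fun _ => dj j g, hd, fun m => Or.inr ⟨j, rfl⟩,
      fun A x t => ?_⟩
    simpa using (h1 d hd K A g x t).2.2 j

lemma bnd (h3 : S_KHI) (h4 : S_CAR) (h5 : S_EN) {d M : ℕ} (hM : d < 2 * M) (q : ℝ) (hq : 2 ≤ q)
    (K : 𝓢(E d, ℂ)) (hK : HasCompactSupport (K : E d → ℂ)) : ∃ C : ℝ, 0 < C ∧
    ∀ (ι : Type) [Fintype ι] [DecidableEq ι] (A : ι → Finset (Fin d → ℤ)) (V : ℕ),
    (∀ i j, i ≠ j → Disjoint (A i) (A j)) → (∀ i, (A i).card ≤ V) →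
    ∀ (k : Fin d ⊕ Bool) (g : 𝓢(E d, ℂ)) (x : E d) (t : ℝ), 0 ≤ t → t ≤ 2 →
      ∑ ε : ι → Bool, ‖sg K A k g ε t x‖ₑ ^ q ≤
        ENNReal.ofReal (C * 2 ^ Fintype.card ι * (V : ℝ) ^ (q / 2)) * nrg M g x ^ (q / 2) := by
  obtain ⟨Ck, hCk, hk⟩ := khi_enn h3 q hq
  obtain ⟨Cc, hCc, hc⟩ := h4 d M K hK
  obtain ⟨Ce, hCe, he⟩ := h5 d M hM
  refine ⟨Ck * (Cc * Ce) ^ (q / 2), by positivity, ?_⟩
  intro ι _ _ A V hA hV k g x t h0 h2
  have a1 := hk ι (fun i => pc K (A i) k g t x)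
  have a2 := hc ι A V hA hV _ (sym_int k t h0 h2 g) x
  have a3 := he g x t h0 h2 k
  have a4 : ∑ i, ‖pc K (A i) k g t x‖ₑ ^ (2 : ℝ) ≤
      ENNReal.ofReal (Cc * Ce * V) * nrg M g x := by
    calc ∑ i, ‖pc K (A i) k g t x‖ₑ ^ (2 : ℝ)
        ≤ ENNReal.ofReal (Cc * V) * nrg M (inv fun ξ => sym k t ξ * 𝓕 (g : E d → ℂ) ξ) x := a2
      _ ≤ ENNReal.ofReal (Cc * V) * (ENNReal.ofReal Ce * nrg M g x) := by gcongr
      _ = _ := by
        rw [← mul_assoc, ← ENNReal.ofReal_mul (by positivity)]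
        congr 2
        ring
  calc ∑ ε : ι → Bool, ‖sg K A k g ε t x‖ₑ ^ q
      ≤ ENNReal.ofReal (Ck * 2 ^ Fintype.card ι) *
        (∑ i, ‖pc K (A i) k g t x‖ₑ ^ (2 : ℝ)) ^ (q / 2) := a1
    _ ≤ ENNReal.ofReal (Ck * 2 ^ Fintype.card ι) *
        (ENNReal.ofReal (Cc * Ce * V) * nrg M g x) ^ (q / 2) := by gcongr
    _ = _ := by
      rw [ENNReal.mul_rpow_of_nonneg _ _ (by linarith : 0 ≤ q / 2),
        ENNReal.ofReal_rpow_of_nonneg (by positivity) (by linarith), ← mul_assoc,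
        ← ENNReal.ofReal_mul (by positivity)]
      congr 2
      rw [Real.mul_rpow (by positivity) (by positivity)]
      ring

/-- the inequality of Hölder and the arithmetic of the exponents -/
lemma hol {κ : Type} [Fintype κ] (q : ℝ) (hq : 2 ≤ q) (D : ℝ) (hD : 0 ≤ D) (a b : κ → ℝ≥0∞)
    (X n0 n1 : ℝ≥0∞) (ha : ∑ i, a i ^ q ≤ X * n0 ^ (q / 2))
    (hb : ∑ i, b i ^ q ≤ ENNReal.ofReal (D ^ q) * (X * n1 ^ (q / 2))) (hn : n0 ≤ n1) :
    ∑ i, (a i ^ q + a i ^ (q - 1) * b i) ≤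
      ENNReal.ofReal (1 + D) * (X * (n0 ^ ((q - 1) / 2) * n1 ^ ((1 : ℝ) / 2))) := by
  have hq1 : (1 : ℝ) < q := by linarith
  have hpq : (q / (q - 1)).HolderConjugate q := (Real.HolderConjugate.conjExponent hq1).symm
  have hq0 : (q - 1) ≠ 0 := by linarith
  have hq2 : q ≠ 0 := by linarith
  have e0 := ENNReal.inner_le_Lp_mul_Lq Finset.univ (fun i => a i ^ (q - 1)) b hpq
  have e1 : ∀ i, (a i ^ (q - 1)) ^ (q / (q - 1)) = a i ^ q := fun i => by
    rw [← ENNReal.rpow_mul]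
    congr 1
    field_simp
  simp only [e1] at e0
  have s1 : ∑ i, a i ^ q ≤ X * (n0 ^ ((q - 1) / 2) * n1 ^ ((1 : ℝ) / 2)) := by
    refine ha.trans ?_
    have e2 : n0 ^ (q / 2) = n0 ^ ((q - 1) / 2) * n0 ^ ((1 : ℝ) / 2) := by
      rw [← ENNReal.rpow_add_of_nonneg _ _ (by linarith) (by norm_num)]
      congr 1
      ring
    rw [e2]
    gcongr
  have s2 : ∑ i, a i ^ (q - 1) * b i ≤
      ENNReal.ofReal D * (X * (n0 ^ ((q - 1) / 2) * n1 ^ ((1 : ℝ) / 2))) := by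
    refine e0.trans ?_
    have hp0 : 0 ≤ 1 / (q / (q - 1)) := by
      have : 0 < q - 1 := by linarith
      positivity
    have hq3 : 0 ≤ 1 / q := by positivity
    calc (∑ i, a i ^ q) ^ (1 / (q / (q - 1))) * (∑ i, b i ^ q) ^ (1 / q)
        ≤ (X * n0 ^ (q / 2)) ^ (1 / (q / (q - 1))) *
          (ENNReal.ofReal (D ^ q) * (X * n1 ^ (q / 2))) ^ (1 / q) := by gcongr
      _ = _ := by
        rw [ENNReal.mul_rpow_of_nonneg _ _ hp0, ENNReal.mul_rpow_of_nonneg _ _ hq3,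
          ENNReal.mul_rpow_of_nonneg _ _ hq3, ← ENNReal.rpow_mul, ← ENNReal.rpow_mul,
          ENNReal.ofReal_rpow_of_nonneg (by positivity) hq3, ← Real.rpow_mul hD]
        have f1 : q / 2 * (1 / (q / (q - 1))) = (q - 1) / 2 := by field_simp
        have f2 : q / 2 * (1 / q) = 1 / 2 := by field_simp
        have f3 : q * (1 / q) = 1 := by field_simp
        have f4 : X ^ (1 / (q / (q - 1))) * X ^ (1 / q) = X := by
          rw [← ENNReal.rpow_add_of_nonneg _ _ hp0 hq3]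
          have : 1 / (q / (q - 1)) + 1 / q = 1 := by field_simp; ring
          rw [this, ENNReal.rpow_one]
        rw [f1, f2, f3, Real.rpow_one]
        calc X ^ (1 / (q / (q - 1))) * n0 ^ ((q - 1) / 2) *
              (ENNReal.ofReal D * (X ^ (1 / q) * n1 ^ ((1 : ℝ) / 2)))
            = ENNReal.ofReal D * ((X ^ (1 / (q / (q - 1))) * X ^ (1 / q)) *
              (n0 ^ ((q - 1) / 2) * n1 ^ ((1 : ℝ) / 2))) := by ring
          _ = _ := by rw [f4]
  rw [Finset.sum_add_distrib]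
  calc _ ≤ X * (n0 ^ ((q - 1) / 2) * n1 ^ ((1 : ℝ) / 2)) +
        ENNReal.ofReal D * (X * (n0 ^ ((q - 1) / 2) * n1 ^ ((1 : ℝ) / 2))) := add_le_add s1 s2
    _ = _ := by
      rw [ENNReal.ofReal_add zero_le_one hD, ENNReal.ofReal_one, add_mul, one_mul]

end MX

theorem t_max (h1 : S_DT) (h2 : S_SOB) (h3 : S_KHI) (h4 : S_CAR) (h5 : S_EN) : S_MAX := by
  intro d M hd hM q hq K hK
  obtain ⟨Cs, hCs, hs⟩ := h2 q hq
  obtain ⟨C, hC, hb⟩ := MX.bnd h3 h4 h5 hM q hq K hK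
  refine ⟨Cs * (2 * ((1 + d) * C)), by positivity, ?_⟩
  intro ι _ _ A V hA hV k g x
  obtain ⟨n, kk, gg, hn, hgg, hder⟩ := MX.der h1 hd K k g
  set F : (ι → Bool) → ℝ → ℂ := fun ε t => sg K A k g ε t x with hF
  set F' : (ι → Bool) → ℝ → ℂ := fun ε t => ∑ m, sg K A (kk m) (gg m) ε t x with hF'
  have hcont : ∀ (k' : Fin d ⊕ Bool) (g' : 𝓢(E d, ℂ)) (A' : Finset (Fin d → ℤ)),
      Continuous fun t => pc K A' k' g' t x := by
    intro k' g' A'
    obtain ⟨_, kk', gg', _, _, hder'⟩ := MX.der h1 hd K k' g'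
    exact continuous_iff_continuousAt.2 fun t => (hder' A' x t).continuousAt
  have hsgc : ∀ (k' : Fin d ⊕ Bool) (g' : 𝓢(E d, ℂ)) (ε : ι → Bool),
      Continuous fun t => sg K A k' g' ε t x := by
    intro k' g' ε
    unfold sg
    refine continuous_finsetSum _ fun i _ => ?_
    by_cases h : ε i = true
    · simp only [h, if_true]
      exact hcont _ _ _
    · simp only [h, if_false, Bool.false_eq_true]
      exact (hcont _ _ _).neg
  have hF'c : ∀ ε, Continuous (F' ε) := fun ε => continuous_finsetSum _ fun m _ => hsgc _ _ ε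
  have hFc : ∀ ε, Continuous (F ε) := fun ε => hsgc _ _ ε
  have hd1 : ∀ ε t, HasDerivAt (F ε) (F' ε t) t := by
    intro ε t
    have e : F' ε t = ∑ i, (if ε i then ∑ m, pc K (A i) (kk m) (gg m) t x else
        - ∑ m, pc K (A i) (kk m) (gg m) t x) := by
      simp only [hF', sg]
      rw [Finset.sum_comm]
      refine Finset.sum_congr rfl fun i _ => ?_
      by_cases h : ε i = true
      · simp only [h, if_true]
      · simp only [h, if_false, Bool.false_eq_true, Finset.sum_neg_distrib]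
    rw [e]
    simp only [hF, sg]
    refine HasDerivAt.fun_sum fun i _ => ?_
    by_cases h : ε i = true
    · simp only [h, if_true]
      exact hder _ x t
    · simp only [h, if_false, Bool.false_eq_true]
      exact (hder _ x t).neg
  set X : ℝ≥0∞ := ENNReal.ofReal (C * 2 ^ Fintype.card ι * (V : ℝ) ^ (q / 2)) with hX
  set n0 : ℝ≥0∞ := nrg M g x with hn0
  set n1 : ℝ≥0∞ := n0 + ∑ j, nrg M (dj j g) x with hn1
  have h01 : n0 ≤ n1 := le_self_add
  have hgn : ∀ m, nrg M (gg m) x ≤ n1 := by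
    intro m
    rcases hgg m with h | ⟨j, h⟩
    · rw [h]
      exact h01
    · rw [h]
      exact (Finset.single_le_sum (f := fun j => nrg M (dj j g) x) (fun _ _ => zero_le)
        (Finset.mem_univ j)).trans le_add_self
  have hFb : ∀ t ∈ Set.Icc (0 : ℝ) 2, ∑ ε, ‖F ε t‖ₑ ^ q ≤ X * n0 ^ (q / 2) := fun t ht =>
    hb ι A V hA hV k g x t ht.1 ht.2
  have hF'b : ∀ t ∈ Set.Icc (0 : ℝ) 2,
      ∑ ε, ‖F' ε t‖ₑ ^ q ≤ ENNReal.ofReal ((d : ℝ) ^ q) * (X * n1 ^ (q / 2)) := by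
    intro t ht
    calc ∑ ε, ‖F' ε t‖ₑ ^ q
        ≤ ∑ ε : ι → Bool, ENNReal.ofReal (((Finset.univ : Finset (Fin n)).card : ℝ) ^ (q - 1)) *
          ∑ m, ‖sg K A (kk m) (gg m) ε t x‖ₑ ^ q :=
          Finset.sum_le_sum fun ε _ => pow_sum q (by linarith) _ _
      _ = ENNReal.ofReal ((n : ℝ) ^ (q - 1)) *
          ∑ m, ∑ ε : ι → Bool, ‖sg K A (kk m) (gg m) ε t x‖ₑ ^ q := by
          rw [← Finset.mul_sum, Finset.sum_comm, Finset.card_univ, Fintype.card_fin]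
      _ ≤ ENNReal.ofReal ((n : ℝ) ^ (q - 1)) * ∑ _m : Fin n, X * n1 ^ (q / 2) := by
          gcongr with m _
          refine (hb ι A V hA hV (kk m) (gg m) x t ht.1 ht.2).trans ?_
          have := hgn m
          gcongr
      _ = ENNReal.ofReal ((n : ℝ) ^ (q - 1) * n) * (X * n1 ^ (q / 2)) := by
          rw [Finset.sum_const, Finset.card_univ, Fintype.card_fin, nsmul_eq_mul, ← mul_assoc,
            ENNReal.ofReal_mul (by positivity), ENNReal.ofReal_natCast]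
      _ ≤ _ := by
          have h3 : (n : ℝ) ^ (q - 1) * n ≤ (d : ℝ) ^ q := by
            have hnd : (n : ℝ) ≤ d := by exact_mod_cast hn
            calc (n : ℝ) ^ (q - 1) * n ≤ (d : ℝ) ^ (q - 1) * d := by gcongr; linarith
              _ = (d : ℝ) ^ q := by
                rw [← Real.rpow_add_one (by positivity)]
                congr 1
                ring
          gcongr
  calc ∑ ε : ι → Bool, sp K A k g ε x ^ q
      ≤ ∑ ε : ι → Bool, ENNReal.ofReal Cs * ((∫⁻ t in Set.Icc (0 : ℝ) 2, ‖F ε t‖ₑ ^ q) +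
        ∫⁻ t in Set.Icc (0 : ℝ) 2, ‖F ε t‖ₑ ^ (q - 1) * ‖F' ε t‖ₑ) :=
        Finset.sum_le_sum fun ε _ => hs (F ε) (F' ε) (hF'c ε) (hd1 ε)
    _ = ENNReal.ofReal Cs * ∫⁻ t in Set.Icc (0 : ℝ) 2,
        ∑ ε : ι → Bool, (‖F ε t‖ₑ ^ q + ‖F ε t‖ₑ ^ (q - 1) * ‖F' ε t‖ₑ) := by
        rw [← Finset.mul_sum]
        congr 1
        have hm : ∀ ε, Measurable fun t => ‖F ε t‖ₑ ^ q := fun ε =>
          ((hFc ε).measurable.enorm).pow_const q
        have hm2 : ∀ ε, Measurable fun t => ‖F ε t‖ₑ ^ (q - 1) * ‖F' ε t‖ₑ := fun ε =>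
          (((hFc ε).measurable.enorm).pow_const (q - 1)).mul (hF'c ε).measurable.enorm
        rw [lintegral_finsetSum Finset.univ
          (f := fun ε t => ‖F ε t‖ₑ ^ q + ‖F ε t‖ₑ ^ (q - 1) * ‖F' ε t‖ₑ)
          (fun ε _ => (hm ε).add (hm2 ε))]
        exact Finset.sum_congr rfl fun ε _ => (lintegral_add_left (hm ε) _).symm
    _ ≤ ENNReal.ofReal Cs * ∫⁻ _t in Set.Icc (0 : ℝ) 2, ENNReal.ofReal (1 + d) *
        (X * (n0 ^ ((q - 1) / 2) * n1 ^ ((1 : ℝ) / 2))) := by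
        gcongr ENNReal.ofReal Cs * ?_
        exact setLIntegral_mono' measurableSet_Icc fun t ht =>
          MX.hol q hq d (by positivity) (fun ε => ‖F ε t‖ₑ) (fun ε => ‖F' ε t‖ₑ) X n0 n1
            (hFb t ht) (hF'b t ht) h01
    _ = _ := by
        rw [setLIntegral_const, Real.volume_Icc, hX]
        have e1 : Cs * (2 * ((1 + d) * C)) * 2 ^ Fintype.card ι * (V : ℝ) ^ (q / 2) =
            Cs * ((1 + d) * (C * 2 ^ Fintype.card ι * (V : ℝ) ^ (q / 2)) * (2 - 0)) := by ring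
        have e2 : ∀ Z : ℝ, 0 ≤ Z → ENNReal.ofReal (Cs * ((1 + d) * Z * (2 - 0))) =
            ENNReal.ofReal Cs * (ENNReal.ofReal (1 + d) * ENNReal.ofReal Z *
              ENNReal.ofReal (2 - 0)) := by
          intro Z hZ
          rw [ENNReal.ofReal_mul hCs.le, ENNReal.ofReal_mul (by positivity),
            ENNReal.ofReal_mul (by positivity)]
        rw [e1, e2 _ (by positivity)]
        ring

end Pool.Agent.N303.LS
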